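import Pool.Agent.T9h36.SK.Spec

/-!
# Set Cover with a few NOT gates: piece (B), the approximation method with explicit parameters
-/

set_option autoImplicit false

namespace Pool.Agent.T9h8.SK

open Finset
open Pool.Agent.T9h34 (Circuit)
open Pool.Agent.T9h16 (Leaf)
open Pool.Agent.T9h20 (FCircuit)
open Pool.Agent.T9h20.SC
open Pool.Agent.T9h36.SC
open Pool.Agent.T9h36.SK

/-- The sets with `s` elements and sum zero, in all roles, for all weights. -/
def negW (k s p : ℕ) (w : Fin (k * s) → ZMod p) : Set (Atom k (k * s)) :=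
  {e | e.2.card = s ∧ ∑ i ∈ e.2, w i = 0}

/-- There are at most `p ^ (n - 1)` weights of sum one. -/
theorem card_wt (k s p : ℕ) [Fact p.Prime] (hn : 1 ≤ k * s) :
    Fintype.card (Wt k s p) * p ≤ p ^ (k * s) := by
  classical
  have h1 : Fintype.card (Wt k s p × ZMod p) = Fintype.card (Wt k s p) * p := by
    rw [Fintype.card_prod, ZMod.card]
  have h2 : Fintype.card (Fin (k * s) → ZMod p) = p ^ (k * s) := by
    rw [Fintype.card_fun, Fintype.card_fin, ZMod.card]
  rw [← h1, ← h2]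
  let i₀ : Fin (k * s) := ⟨0, hn⟩
  refine Fintype.card_le_of_injective
    (fun q : Wt k s p × ZMod p => q.1.1 + Pi.single i₀ q.2) ?_
  rintro ⟨w, c⟩ ⟨w', c'⟩ h
  dsimp only at h
  have hs : ∀ (u : Wt k s p) (b : ZMod p),
      ∑ i, (u.1 + (Pi.single i₀ b : Fin (k * s) → ZMod p)) i = 1 + b := by
    intro u b
    simp only [Pi.add_apply]
    rw [sum_add_distrib, u.2, Finset.sum_pi_single', if_pos (mem_univ _)]
  have hc : c = c' := by
    have h3 := hs w c
    rw [h, hs w' c'] at h3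
    exact (add_left_cancel h3).symm
  subst hc
  have hw : w = w' := Subtype.ext (add_right_cancel h)
  rw [hw]

open Classical in
/-- The application of the approximation method. -/
theorem approx_leaf_inst (k s : ℕ) (hk : 2 ≤ k) (hs : 1 ≤ s)
    (p : ℕ) [Fact p.Prime] (X K r G : ℕ) (hX : 1 ≤ X) (hK1 : 1 ≤ K) (hr : 1 ≤ r)
    (hK : 2 * X ^ ((k + 1) ^ 2 * r) * (X + (k + 1) ^ 2) ^ (k * s) ≤ K * X ^ (k * s))
    (hG : (p ^ 2 * (k * s)) ^ (p - 1) * (p ^ 2 * (k * s) + p ^ 2) ^ (k * s)
      ≤ G * (p ^ 2 * (k * s)) ^ (k * s))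
    {Λ : Type} (C : FCircuit Λ) (hC : C.FanInLe 2)
    (x : Set (Atom k (k * s)) → Λ → Bool) (hx : ∀ a, Leaf (fun z => x z a = true)) :
    ∃ L : Finset (Equiv.Perm (Fin (k * s))),
      L.card ≤ C.size * ((2 * 2 * (k + 1) * ((k + 1) ^ (k + 1) * K ^ (k + 1)) ^ (k + 1)) ^ (k + 1) *
        ((((k + 1) ^ 2) ^ k * ((k * s + 1) * (k * s).factorial)) / 2 ^ (k * s))) ∧
      ∀ π, π ∉ L → ∃ τ : Fin (k * s) → Fin (k + 1), Ok τ ∧
        ∀ Z : Finset (Fin (k * s) → ZMod p),
          (∀ w ∈ Z, Ev w τ ∧ C.eval (fun a => if x (negW k s p w) a = true then (1 : ℝ) else 0) <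
            C.eval (fun a => if x (posA k s π) a = true then (1 : ℝ) else 0)) →
          Z.card ≤ (C.size + 1) * ((2 + 1) * (((k + 1) ^ (k * s) + 1) *
            ((k + 1) ^ (k * s) * ((2 ^ r + 1) ^ (k + 1) * (p ^ (k * s + 1 - r) * G))))) := by
  have hn1 : 1 ≤ k * s := Nat.mul_pos (by omega) hs
  have hD1 : 1 ≤ ((k + 1) ^ (k + 1) * K ^ (k + 1)) ^ (k + 1) := by
    apply Nat.one_le_pow
    exact Nat.mul_pos (by positivity) (pow_pos hK1 _)
  have h1 : ∀ a : Fin (k * s) → Fin (k + 1), Ref a a := fun a => Ref.refl' a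
  have h2 : ∀ a b c : Fin (k * s) → Fin (k + 1), Ref a b → Ref b c → Ref a c :=
    fun a b c h1 h2 => h1.trans' h2
  have h3 : ∀ (w : Fin (k * s) → ZMod p) (a b : Fin (k * s) → Fin (k + 1)), Ev w a → Ref a b →
      Ev w b := fun w a b h1 h2 => h1.mono h2
  have h4 : ∀ (x : Equiv.Perm (Fin (k * s))) (a b : Fin (k * s) → Fin (k + 1)),
      Pos (cls k s) x a → Ref a b → Pos (cls k s) x b := fun x a b h1 h2 i j hij =>
    h2.1 i j (h1 i j hij)
  have h5 : Ok (fun _ : Fin (k * s) => (0 : Fin (k + 1))) := by simp [Ok]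
  have h6 : ∀ x : Equiv.Perm (Fin (k * s)),
      Pos (cls k s) x (fun _ : Fin (k * s) => (0 : Fin (k + 1))) := fun x i j _ => rfl
  have h7 : ∀ w : Fin (k * s) → ZMod p, Ev w (fun _ : Fin (k * s) => (0 : Fin (k + 1))) := by
    intro w c hc
    apply sum_eq_zero
    intro i hi
    exact absurd (mem_filter.1 hi).2.symm hc
  have h8 : ∀ t : Fin (k * s) → Fin (k + 1), Ref t (fun _ : Fin (k * s) => (0 : Fin (k + 1))) :=
    fun t => ⟨fun _ _ _ => rfl, fun _ _ => rfl⟩
  have h9 : ∀ t : Fin (k * s) → Fin (k + 1), rk t ≤ k := by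
    intro t
    have := rk_lt_card t
    rw [Fintype.card_fin] at this
    omega
  have h10 : ∀ a b : Fin (k * s) → Fin (k + 1), Ref a b → ¬ Ref b a → rk b < rk a := by
    intro a b h1 h2
    by_contra h3
    push Not at h3
    exact h2 ((stRank (Fin (k + 1)) (k * s) a b h1).2 h3)
  have h11 : ∀ a b : Fin (k * s) → Fin (k + 1), Ok a → Ref a b → Ok b :=
    fun a b h1 h2 => Ok.mono h1 h2
  have h12 : ∀ (x : Equiv.Perm (Fin (k * s))) (a b : Fin (k * s) → Fin (k + 1)), Ok a → Ok b →
      Pos (cls k s) x a → Pos (cls k s) x b →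
      ¬ (k * s < 2 * (univ.filter (fun i => a i ≠ 0 ∨ b i ≠ 0)).card) →
      ∃ c, Ok c ∧ Pos (cls k s) x c ∧ Ref c a ∧ Ref c b := by
    intro x a b _ _ h3 h4 h5
    push Not at h5
    exact stJoin (k * s) k (cls k s) x a b h3 h4 h5
  have H := stApprox (Fin (k * s) → Fin (k + 1)) (Equiv.Perm (Fin (k * s)))
    (Fin (k * s) → ZMod p) Λ Ok Ref rk (Pos (cls k s)) Ev
    (fun a b => k * s < 2 * (univ.filter (fun i => a i ≠ 0 ∨ b i ≠ 0)).card) (fun _ => 0)
    k (((k + 1) ^ (k + 1) * K ^ (k + 1)) ^ (k + 1))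
    ((((k + 1) ^ 2) ^ k * ((k * s + 1) * (k * s).factorial)) / 2 ^ (k * s))
    ((2 ^ r + 1) ^ (k + 1) * (p ^ (k * s + 1 - r) * G)) 2 (by norm_num) hD1 h1 h2 h3 h4 h5 h6 h7
    h8 h9 h10 h11 h12
  have H1 := H (fun a b g1 g2 g3 => cross_card Pool.Agent.T9h18.SC.stCross k s a b g1 g2 g3)
  have H2 := H1 (by
    intro S τ q g1 g2
    obtain ⟨s', L, e1, e2, e3, e4, e5⟩ := pluck_inst k s p X K r G hX hK1 hr hn1 hK hG S τ q
        (fun t ht => (g1 t ht).2) g2
    refine ⟨s', L, e1, e2, e3, e4, ?_⟩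
    refine le_trans (le_of_eq ?_) e5
    congr)
  obtain ⟨xp, hxp⟩ : ∃ xp : Equiv.Perm (Fin (k * s)) → Λ → ℝ,
    xp = fun π a => if x (posA k s π) a = true then (1 : ℝ) else 0 := ⟨_, rfl⟩
  obtain ⟨xn, hxn⟩ : ∃ xn : (Fin (k * s) → ZMod p) → Λ → ℝ,
    xn = fun w a => if x (negW k s p w) a = true then (1 : ℝ) else 0 := ⟨_, rfl⟩
  obtain ⟨base, hbase⟩ : ∃ base : Λ → ℝ → Finset (Fin (k * s) → Fin (k + 1)),
    base = fun a t => univ.filter (fun τ => Ok τ ∧ (t ≤ 0 ∨ (t ≤ 1 ∧
      ∀ w : Fin (k * s) → ZMod p, Ev w τ → x (negW k s p w) a = true))) := ⟨_, rfl⟩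
  have hmem : ∀ a t τ, τ ∈ base a t ↔ Ok τ ∧ (t ≤ 0 ∨ (t ≤ 1 ∧
      ∀ w : Fin (k * s) → ZMod p, Ev w τ → x (negW k s p w) a = true)) := by
    intro a t τ
    rw [hbase]
    dsimp only
    rw [mem_filter]
    exact ⟨fun h => h.2, fun h => ⟨mem_univ _, h⟩⟩
  obtain ⟨L, hL, hLx⟩ := H2 C hC xp xn base
    (fun a t τ hτ => ((hmem a t τ).1 hτ).1)
    (by
      intro a t t' htt τ hτ
      obtain ⟨g1, g2⟩ := (hmem a t' τ).1 hτ
      refine (hmem a t τ).2 ⟨g1, ?_⟩
      rcases g2 with g | ⟨g, g'⟩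
      · exact Or.inl (htt.trans g)
      · exact Or.inr ⟨htt.trans g, g'⟩)
    (by
      intro a π t ht
      by_cases h0 : t ≤ 0
      · exact ⟨fun _ => 0, (hmem a t _).2 ⟨h5, Or.inl h0⟩, h6 π⟩
      have hacc : x (posA k s π) a = true := by
        by_contra hne
        rw [hxp] at ht
        dsimp only at ht
        rw [if_neg hne] at ht
        exact h0 ht
      have ht1 : t ≤ 1 := by
        rw [hxp] at ht
        dsimp only at ht
        rwa [if_pos hacc] at ht
      rcases hx a with ⟨v, hv⟩ | ⟨q, hq⟩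
      · have hvπ : v ∈ posA k s π := (hv _).1 hacc
        have hvc : v.2 = univ.filter (fun i => cls k s (π i) = v.1) := hvπ
        have hk1 : (1 : Fin (k + 1)) ≠ 0 := by
          intro h
          have := congrArg Fin.val h
          rw [Fin.val_one', Fin.val_zero, Nat.mod_eq_of_lt (by omega)] at this
          omega
        refine ⟨fun i => if i ∈ v.2 then 1 else 0, (hmem a t _).2 ⟨?_, Or.inr ⟨ht1, ?_⟩⟩, ?_⟩
        · unfold Ok
          have e : (univ.filter (fun i : Fin (k * s) =>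
              (if i ∈ v.2 then (1 : Fin (k + 1)) else 0) ≠ 0)) = v.2 := by
            ext i
            rw [mem_filter]
            constructor
            · rintro ⟨_, h⟩
              by_contra hi
              rw [if_neg hi] at h
              exact h rfl
            · intro hi
              exact ⟨mem_univ _, by rw [if_pos hi]; exact hk1⟩
          rw [e, hvc, cls_card]
          exact Nat.mul_le_mul_right s hk
        · intro w hw
          refine (hv _).2 ⟨?_, ?_⟩
          · rw [hvc, cls_card]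
          · have h := hw 1 hk1
            have e : (univ.filter (fun i : Fin (k * s) =>
                (if i ∈ v.2 then (1 : Fin (k + 1)) else 0) = 1)) = v.2 := by
              ext i
              rw [mem_filter]
              constructor
              · rintro ⟨_, h⟩
                by_contra hi
                rw [if_neg hi] at h
                exact hk1 h.symm
              · intro hi
                exact ⟨mem_univ _, by rw [if_pos hi]⟩
            rw [e] at h
            exact h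
        · intro i j hij
          have e : i ∈ v.2 ↔ j ∈ v.2 := by
            rw [hvc, mem_filter, mem_filter, hij]
            simp
          dsimp only
          by_cases hi : i ∈ v.2
          · rw [if_pos hi, if_pos (e.1 hi)]
          · rw [if_neg hi, if_neg (fun h => hi (e.2 h))]
      · refine ⟨fun _ => 0, (hmem a t _).2 ⟨h5, Or.inr ⟨ht1, fun w _ => ?_⟩⟩, h6 π⟩
        exact (hq _).2 ((hq _).1 hacc))
    (by
      rintro a w t ⟨τ, hτ, hE⟩
      obtain ⟨g1, g2⟩ := (hmem a t τ).1 hτ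
      rw [hxn]
      dsimp only
      rcases g2 with g | ⟨g, g'⟩
      · split_ifs
        · exact g.trans zero_le_one
        · exact g
      · rw [if_pos (g' w hE)]
        exact g)
  refine ⟨L, hL, ?_⟩
  intro π hπ
  obtain ⟨τ, g1, _, g3⟩ := hLx π hπ
  refine ⟨τ, g1, ?_⟩
  intro Z hZ
  have e : Fintype.card (Fin (k * s) → Fin (k + 1)) = (k + 1) ^ (k * s) := by
    rw [Fintype.card_fun, Fintype.card_fin, Fintype.card_fin]
  rw [e] at g3
  refine le_trans (card_le_card ?_) g3
  intro w hw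
  refine mem_filter.2 ⟨mem_univ _, ?_⟩
  have h := hZ w hw
  rw [hxn, hxp]
  exact h

/-- Piece (B). -/
theorem sHard : S_Conv → S_Hard := by
  classical
  intro hConv k s p hp X K r G hk hs hX hK1 hr hK hG Λ D hD herr x hx
  have hn1 : 1 ≤ k * s := Nat.mul_pos (by omega) hs
  have hpp : p.Prime := Fact.out
  obtain ⟨C, hC1, hC2, hC3⟩ := hConv Λ D hD
  obtain ⟨L, hL, hLx⟩ := approx_leaf_inst k s hk hs p X K r G hX hK1 hr hK hG C hC2 x hx
  have hperm : Fintype.card (Equiv.Perm (Fin (k * s))) = (k * s).factorial := by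
    rw [Fintype.card_perm, Fintype.card_fin]
  have hfac : (0 : ℝ) < ((k * s).factorial : ℝ) := by exact_mod_cast Nat.factorial_pos _
  rw [hperm]
  have hnn2 : (0 : ℝ) ≤ 2 * (p : ℝ) ^ k *
        (((univ.filter fun w : Wt k s p => D.eval (x (negA k s p w)) = true).card : ℝ) /
          Fintype.card (Wt k s p)) := by positivity
  by_cases hsub : (univ.filter fun π : Equiv.Perm (Fin (k * s)) =>
      D.eval (x (posA k s π)) = true) ⊆ L
  · -- all accepted permutations are lost
    have h1 := (card_le_card hsub).trans hL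
    obtain ⟨ρ, hρ⟩ : ∃ ρ, ρ = (((k + 1) ^ 2) ^ k * ((k * s + 1) * (k * s).factorial)) / 2 ^ (k * s) :=
      ⟨_, rfl⟩
    rw [← hρ] at h1
    have h2 : ρ * 2 ^ (k * s) ≤ ((k + 1) ^ 2) ^ k * ((k * s + 1) * (k * s).factorial) := by
      rw [hρ]
      exact Nat.div_mul_le_self _ _
    obtain ⟨Q, hQ⟩ : ∃ Q, Q = (2 * 2 * (k + 1) * ((k + 1) ^ (k + 1) * K ^ (k + 1)) ^ (k + 1)) ^
      (k + 1) := ⟨_, rfl⟩
    rw [← hQ] at h1
    have h3 : (univ.filter fun π : Equiv.Perm (Fin (k * s)) =>
        D.eval (x (posA k s π)) = true).card * 2 ^ (k * s) ≤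
        (D.size + 1) * (loss k s 2 K * (k * s).factorial) := by
      calc _ ≤ C.size * (Q * ρ) * 2 ^ (k * s) := Nat.mul_le_mul_right _ h1
        _ = C.size * (Q * (ρ * 2 ^ (k * s))) := by ring
        _ ≤ C.size * (Q * (((k + 1) ^ 2) ^ k * ((k * s + 1) * (k * s).factorial))) :=
            Nat.mul_le_mul_left _ (Nat.mul_le_mul_left _ h2)
        _ ≤ (D.size + 1) * (Q * (((k + 1) ^ 2) ^ k * ((k * s + 1) * (k * s).factorial))) :=
            Nat.mul_le_mul_right _ hC1
        _ = (D.size + 1) * (loss k s 2 K * (k * s).factorial) := by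
            unfold loss
            rw [← hQ]
            ring
    have h4 : (((univ.filter fun π : Equiv.Perm (Fin (k * s)) =>
        D.eval (x (posA k s π)) = true).card : ℕ) : ℝ) * 2 ^ (k * s) ≤
        ((D.size : ℝ) + 1) * (loss k s 2 K * ((k * s).factorial : ℝ)) := by
      exact_mod_cast h3
    refine le_trans ?_ (le_add_of_nonneg_right hnn2)
    rw [div_le_div_iff₀ hfac (by positivity)]
    calc _ ≤ ((D.size : ℝ) + 1) * (loss k s 2 K * ((k * s).factorial : ℝ)) := h4
      _ = _ := by ring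
  · -- some accepted permutation is not lost
    obtain ⟨π, hπ, hπL⟩ := Finset.not_subset.1 hsub
    have hacc : D.eval (x (posA k s π)) = true := (mem_filter.1 hπ).2
    obtain ⟨τ, h1, h3⟩ := hLx π hπL
    have hi0 : ∃ i₀, τ i₀ = 0 := by
      by_contra hne
      push Not at hne
      unfold Ok at h1
      rw [filter_true_of_mem (fun i _ => hne i), card_univ, Fintype.card_fin] at h1
      omega
    obtain ⟨i₀, hi₀⟩ := hi0
    obtain ⟨Z, hZ1, hZ2⟩ := stNeg p (Fin (k + 1)) (k * s) τ i₀ hi₀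
    rw [Fintype.card_fin] at hZ2
    obtain ⟨E, hE⟩ : ∃ E, E = (C.size + 1) * ((2 + 1) * (((k + 1) ^ (k * s) + 1) *
            ((k + 1) ^ (k * s) * ((2 ^ r + 1) ^ (k + 1) * (p ^ (k * s + 1 - r) * G))))) :=
      ⟨_, rfl⟩
    have h4 := h3 (Z.filter (fun w => ¬ D.eval (x (negW k s p w)) = true)) (by
      intro w hw
      obtain ⟨hw1, hw2⟩ := mem_filter.1 hw
      refine ⟨(hZ1 w hw1).1, ?_⟩
      rw [hC3 (x (negW k s p w)), hC3 (x (posA k s π)), if_pos hacc, if_neg hw2]
      exact zero_lt_one)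
    rw [← hE] at h4
    have h5 : 2 * E * p ^ (k + 1) ≤ p ^ (k * s) := by
      refine le_trans ?_ herr
      rw [hE, mul_assoc 2]
      refine Nat.mul_le_mul_left 2 (Nat.mul_le_mul_right _ (Nat.mul_le_mul_right _ ?_))
      omega
    have h6 : 2 * E ≤ Z.card := by
      have h7 : 2 * E * p ^ (k + 1) ≤ Z.card * p ^ (k + 1) := by
        refine (h5.trans hZ2).trans (le_of_eq (mul_comm _ _))
      exact Nat.le_of_mul_le_mul_right h7 (pow_pos hpp.pos _)
    have h7 := Finset.card_filter_add_card_filter_not (s := Z)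
      (fun w => D.eval (x (negW k s p w)) = true)
    have h8 : Z.card ≤ 2 * (Z.filter (fun w => D.eval (x (negW k s p w)) = true)).card := by
      omega
    have h9 : (Z.filter (fun w => D.eval (x (negW k s p w)) = true)).card ≤
        (univ.filter fun w : Wt k s p => D.eval (x (negA k s p w)) = true).card := by
      rw [← Finset.card_image_of_injective (univ.filter fun w : Wt k s p =>
        D.eval (x (negA k s p w)) = true) (Subtype.val_injective)]
      apply card_le_card
      intro w hw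
      obtain ⟨hw1, hw2⟩ := mem_filter.1 hw
      exact mem_image.2 ⟨⟨w, (hZ1 w hw1).2⟩, mem_filter.2 ⟨mem_univ _, hw2⟩, rfl⟩
    obtain ⟨A, hA⟩ : ∃ A, A = (univ.filter fun w : Wt k s p =>
      D.eval (x (negA k s p w)) = true).card := ⟨_, rfl⟩
    rw [← hA] at h9 ⊢
    have h10 : p ^ (k * s) ≤ p ^ (k + 1) * (2 * A) :=
      hZ2.trans (Nat.mul_le_mul_left _ (h8.trans (Nat.mul_le_mul_left 2 h9)))
    have h11 : Fintype.card (Wt k s p) ≤ 2 * p ^ k * A := by
      have h12 : Fintype.card (Wt k s p) * p ≤ 2 * p ^ k * A * p :=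
        (card_wt k s p hn1).trans (h10.trans (le_of_eq (by ring)))
      exact Nat.le_of_mul_le_mul_right h12 hpp.pos
    have hWpos : (0 : ℝ) < (Fintype.card (Wt k s p) : ℝ) := by
      have : 0 < Fintype.card (Wt k s p) := by
        apply Fintype.card_pos_iff.2
        exact ⟨⟨Pi.single ⟨0, hn1⟩ 1, by
          rw [Finset.sum_pi_single', if_pos (mem_univ _)]⟩⟩
      exact_mod_cast this
    have h13 : (1 : ℝ) ≤ 2 * (p : ℝ) ^ k * ((A : ℝ) / Fintype.card (Wt k s p)) := by
      rw [← mul_div_assoc, le_div_iff₀ hWpos, one_mul]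
      exact_mod_cast h11
    have h14 : ((univ.filter fun π : Equiv.Perm (Fin (k * s)) =>
        D.eval (x (posA k s π)) = true).card : ℝ) / ((k * s).factorial : ℝ) ≤ 1 := by
      rw [div_le_one hfac]
      have h15 : (univ.filter fun π : Equiv.Perm (Fin (k * s)) =>
        D.eval (x (posA k s π)) = true).card ≤ (k * s).factorial := by
        rw [← hperm]
        exact card_le_univ _
      exact_mod_cast h15
    have h16 : (0 : ℝ) ≤ ((D.size : ℝ) + 1) * loss k s 2 K / 2 ^ (k * s) := by positivity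
    linarith

end Pool.Agent.T9h8.SK
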